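import Pool.Agent.Helper37.KD.DefsC

/-! KD Part I, piece H4: sup bound and entropy upper bound -/

namespace KD

open Finset

namespace I.H4

/-- the embedding of a box in `V` -/
def box {d : ℕ} (N m : ℕ) (a : Fin d → Fin (m + 1)) : V d N := fun i => ((a i : ℕ) : ZMod N)

theorem box_inj {d : ℕ} {N m : ℕ} [NeZero N] (hm : m + 1 ≤ N) :
    Function.Injective (box (d := d) N m) := by
  intro a b hab
  funext i
  have h1 : ((a i : ℕ) : ZMod N) = ((b i : ℕ) : ZMod N) := congrFun hab i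
  have h2 := congrArg ZMod.val h1
  rw [ZMod.val_natCast_of_lt (by have := (a i).2; omega),
    ZMod.val_natCast_of_lt (by have := (b i).2; omega)] at h2
  exact Fin.ext h2

theorem n1_box {d : ℕ} {N m : ℕ} [NeZero N] (hm : m + 1 ≤ N) (a : Fin d → Fin (m + 1)) :
    n1 (box N m a) ≤ d * m := by
  unfold n1
  have h : ∀ i ∈ (Finset.univ : Finset (Fin d)),
      (((box N m a i).valMinAbs.natAbs : ℕ) : ℝ) ≤ (m : ℝ) := by
    intro i _
    have h1 : (box N m a i).valMinAbs.natAbs ≤ (a i : ℕ) := by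
      rw [ZMod.valMinAbs_natAbs_eq_min]
      refine (min_le_left _ _).trans ?_
      unfold box
      rw [ZMod.val_natCast_of_lt (by have := (a i).2; omega)]
    have h2 : (a i : ℕ) ≤ m := Nat.lt_succ_iff.mp (a i).2
    exact_mod_cast h1.trans h2
  calc _ ≤ ∑ _i : Fin d, (m : ℝ) := Finset.sum_le_sum h
    _ = d * m := by simp

theorem R_le_N {d : ℕ} {s c0 C0 C1 : ℝ} (hs : 0 < s) (E : Env d s c0 C0 C1) {k : ℕ}
    (hk : k ≤ E.K) : E.R k ≤ E.N := by
  refine le_trans ?_ E.hNR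
  unfold Env.R Rad
  have h1 : (2 : ℝ) ^ k ≤ 2 ^ E.K := pow_le_pow_right₀ one_le_two hk
  have h2 : tim s k ≤ tim s E.K := tim_le_tim hs hk
  have h3 := tim_pos s k
  have h4 : 0 ≤ E.M / E.ε := div_nonneg (by linarith [E.hM]) E.hε.le
  exact mul_le_mul (mul_le_mul_of_nonneg_left h1 h4) h2 h3.le (by positivity)

/-- the sup bound with an explicit constant -/
theorem sup_bound {d : ℕ} {s c0 C0 C1 : ℝ} (hs : 0 < s) (E : Env d s c0 C0 C1) (μ : E.G → ℝ)
    (hμ : IsP μ) {k : ℕ} (hk : k ≤ E.K) (z : E.G) :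
    lev E.q μ (k + 1) z * ((2 ^ k) ^ d * E.R k ^ d) ≤ Real.exp (2 * d) * 2 ^ d := by
  classical
  set u := lev E.q μ (k + 1) with hu
  have hR := E.R_pos k
  have hRN := R_le_N hs E hk
  have hN8 : 2 ^ (k + 1) ≤ E.N := le_trans (Nat.pow_le_pow_right (by norm_num) (by omega)) E.hN
  -- the sizes of the box
  set m₁ : ℕ := ⌊E.R k / 2⌋₊ with hm₁
  set m₂ : ℕ := 2 ^ k - 1 with hm₂
  have hm₁a : (m₁ : ℝ) ≤ E.R k / 2 := Nat.floor_le (by positivity)
  have hm₁b : E.R k / 2 ≤ (m₁ : ℝ) + 1 := (Nat.lt_floor_add_one _).le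
  have hm₁N : m₁ + 1 ≤ E.N := by
    have h1 : (2 : ℝ) ≤ E.N := by
      have : 2 ≤ E.N := le_trans (by
        calc 2 = 2 ^ 1 := rfl
          _ ≤ 2 ^ (k + 1) := Nat.pow_le_pow_right (by norm_num) (by omega)) hN8
      exact_mod_cast this
    have h2 : (m₁ : ℝ) + 1 ≤ E.N := by linarith
    exact_mod_cast h2
  have h2k : 1 ≤ 2 ^ k := Nat.one_le_two_pow
  have hm₂1 : m₂ + 1 = 2 ^ k := by omega
  have hm₂N : m₂ + 1 ≤ E.N := by
    rw [hm₂1]
    exact le_trans (Nat.pow_le_pow_right (by norm_num) (by omega)) hN8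
  let f : (Fin d → Fin (m₁ + 1)) × (Fin d → Fin (m₂ + 1)) → E.G :=
    fun p => (box E.N m₁ p.1, box E.N m₂ p.2)
  have hf : Function.Injective f := by
    rintro ⟨a, b⟩ ⟨a', b'⟩ h
    have h1 : box E.N m₁ a = box E.N m₁ a' := congrArg Prod.fst h
    have h2 : box E.N m₂ b = box E.N m₂ b' := congrArg Prod.snd h
    rw [box_inj hm₁N h1, box_inj hm₂N h2]
  have hnm : ∀ p, E.nm k (f p) ≤ 2 * d := by
    intro p
    unfold Env.nm nrm
    have h1 : n1 (f p).1 ≤ d * E.R k := by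
      refine (n1_box hm₁N p.1).trans ?_
      have : (m₁ : ℝ) ≤ E.R k := by linarith
      exact mul_le_mul_of_nonneg_left this (by positivity)
    have h2 : n1 (f p).2 ≤ d * 2 ^ k := by
      refine (n1_box hm₂N p.2).trans ?_
      have : (m₂ : ℝ) ≤ 2 ^ k := by
        have : m₂ ≤ 2 ^ k := by omega
        exact_mod_cast this
      exact mul_le_mul_of_nonneg_left this (by positivity)
    have h3 : n1 (f p).1 / E.R k ≤ d := by rwa [div_le_iff₀ hR]
    have h4 : n1 (f p).2 / 2 ^ k ≤ d := by rwa [div_le_iff₀ (by positivity)]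
    linarith
  have hup : ∀ y, 0 ≤ u y := fun y => (E.u_pos hμ hk y).le
  have h1 : ∀ p, u z ≤ Real.exp (2 * d) * u (z - f p) := by
    intro p
    have h := E.u_lip hμ hk (z - f p) (f p)
    rw [sub_add_cancel] at h
    refine h.trans (mul_le_mul_of_nonneg_right (Real.exp_le_exp.mpr (hnm p)) (hup _))
  have h2 : ∑ p, u (z - f p) ≤ 1 := by
    have hinj : Function.Injective fun p => z - f p := fun p p' h => hf (sub_right_injective h)
    rw [← E.u_sum hμ (k := k + 1) (by omega),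
      ← Finset.sum_image (f := u) (g := fun p => z - f p) (fun p _ p' _ h => hinj h)]
    exact Finset.sum_le_sum_of_subset_of_nonneg (Finset.subset_univ _) fun y _ _ => hup y
  have h3 : (Fintype.card ((Fin d → Fin (m₁ + 1)) × (Fin d → Fin (m₂ + 1))) : ℝ) * u z ≤
      Real.exp (2 * d) := by
    calc _ = ∑ _p : (Fin d → Fin (m₁ + 1)) × (Fin d → Fin (m₂ + 1)), u z := by
          rw [Finset.sum_const, nsmul_eq_mul, Finset.card_univ]
      _ ≤ ∑ p, Real.exp (2 * d) * u (z - f p) := Finset.sum_le_sum fun p _ => h1 p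
      _ = Real.exp (2 * d) * ∑ p, u (z - f p) := by rw [Finset.mul_sum]
      _ ≤ Real.exp (2 * d) * 1 := mul_le_mul_of_nonneg_left h2 (Real.exp_pos _).le
      _ = _ := mul_one _
  have h4 : (Fintype.card ((Fin d → Fin (m₁ + 1)) × (Fin d → Fin (m₂ + 1))) : ℝ) =
      ((m₁ : ℝ) + 1) ^ d * (2 ^ k) ^ d := by
    rw [Fintype.card_prod, Fintype.card_fun, Fintype.card_fun, Fintype.card_fin,
      Fintype.card_fin, Fintype.card_fin, hm₂1]
    push_cast
    ring
  rw [h4] at h3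
  have h5 : (E.R k / 2) ^ d ≤ ((m₁ : ℝ) + 1) ^ d := pow_le_pow_left₀ (by positivity) hm₁b d
  have h6 : (E.R k / 2) ^ d * (2 ^ k) ^ d * u z ≤ Real.exp (2 * d) :=
    le_trans (mul_le_mul_of_nonneg_right (mul_le_mul_of_nonneg_right h5 (by positivity)) (hup z)) h3
  have h7 : u z * ((2 ^ k) ^ d * E.R k ^ d) = (E.R k / 2) ^ d * (2 ^ k) ^ d * u z * 2 ^ d := by
    rw [div_pow]
    field_simp
  rw [h7]
  exact mul_le_mul_of_nonneg_right h6 (by positivity)

/-- upper bound of a level density by the sup of the kernel -/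
theorem lev_sup_le (s c0 C0 C1 : ℝ) (d : ℕ) (hs : 0 < s) : ∃ C : ℝ, 0 < C ∧
    ∀ (E : Env d s c0 C0 C1) (μ : E.G → ℝ), IsP μ → ∀ k ≤ E.K, ∀ z,
      lev E.q μ (k + 1) z * ((2 ^ k) ^ d * E.R k ^ d) ≤ C :=
  ⟨Real.exp (2 * d) * 2 ^ d, by positivity, fun E μ hμ _ hk z => sup_bound hs E μ hμ hk z⟩

/-- hence the entropy of `u_{k+1}` is at most `-log(c r_k^d R_k^d)` -/
theorem entropy_upper (s c0 C0 C1 : ℝ) (d : ℕ) (hs : 0 < s) : ∃ C : ℝ, 0 < C ∧
    ∀ (E : Env d s c0 C0 C1) (μ : E.G → ℝ), IsP μ → ∀ k ≤ E.K,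
      Ht (lev E.q μ (k + 1)) ≤ - Real.log ((2 ^ k) ^ d * E.R k ^ d) + C := by
  obtain ⟨C, hC, hb⟩ := lev_sup_le s c0 C0 C1 d hs
  refine ⟨|Real.log C| + 1, by positivity, fun E μ hμ k hk => ?_⟩
  have hR := E.R_pos k
  have hA : (0 : ℝ) < (2 ^ k) ^ d * E.R k ^ d := by positivity
  unfold Ht
  have h1 : ∀ z ∈ (Finset.univ : Finset E.G),
      lev E.q μ (k + 1) z * Real.log (lev E.q μ (k + 1) z) ≤
      lev E.q μ (k + 1) z * (- Real.log ((2 ^ k) ^ d * E.R k ^ d) + Real.log C) := by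
    intro z _
    have hu := E.u_pos hμ hk z
    have h2 : Real.log (lev E.q μ (k + 1) z) + Real.log ((2 ^ k) ^ d * E.R k ^ d) ≤ Real.log C := by
      rw [← Real.log_mul hu.ne' hA.ne']
      exact Real.log_le_log (mul_pos hu hA) (hb E μ hμ k hk z)
    exact mul_le_mul_of_nonneg_left (by linarith) hu.le
  refine (Finset.sum_le_sum h1).trans ?_
  rw [← Finset.sum_mul, E.u_sum hμ (by omega), one_mul]
  have := le_abs_self (Real.log C)
  linarith

end I.H4

end KD
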